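import Pool.Agent.TH468.BA.Triple

set_option autoImplicit false

/-!
# Triple systems and groups of almost all orders (MP_c82047_co)

There are functions `K(δ)` and `C(δ, k)` such that for every `η > 0` there is `M` such that for all
`x ≥ 8`, `s ≥ 1` all but at most `η x` of the integers `m ≤ x` have the following property, where
`B = (s log x) ^ M`. Let `G` be ANY finite group of order at most `s m` which acts by automorphisms
on a triple system `H` such that every vertex is fixed by `G` or lies in an orbit with `m` elements
(for instance a Latin square or a partial Latin square, rows, columns and symbols being the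
vertices, and a group of order `m` which acts freely on the rows and on the symbols and fixes all
columns). Let `w` be the number of vertices in orbits with `m` elements, `δ > 0`, `k ≥ K(δ)` and
`m ≥ C(δ, k) B`. If some such vertex lies in more than `C(δ, k) (B w / m) ^ (1 + δ)` triples (in
particular if more than `w` times as many triples contain such a vertex), then some `k` vertices
span at least `k + ⌊k / K(δ)⌋` triples.

Proof. For most `m` the group has a cyclic subgroup of order at least `m / B` which acts freely on
the vertices that are not fixed (library of helper669, `MP_d4e2f9_lc.AlmostAllDegrees`); it has at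
most `B w / m` orbits with more than one element, and the local form of our theorem
`SolvableSymmetry` applies, in which fixed vertices cost nothing.
-/

namespace Pool.Agent.Results.MP_c82047_co.AlmostAllOrders

/-- `SparseTriple K C m s B`: for every finite set `V`, every finite group `G` of order at most
`s m` acting on `V` such that every orbit has `m` elements or one element, every set `H` of triples
in `V` which is invariant under `G`, all `δ > 0` and `k ≥ K(δ)` with `C(δ, k) B ≤ m`, `w` being the
number of vertices in orbits with `m` elements: if more than `C(δ, k) w (B w / m) ^ (1 + δ)` triples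
of `H` contain such a vertex, or some such vertex lies in more than
`C(δ, k) (B w / m) ^ (1 + δ)` triples of `H`, then some `k` vertices span at least
`k + ⌊k / K(δ)⌋` triples of `H`. -/
def SparseTriple (K : ℝ → ℕ) (C : ℝ → ℕ → ℕ) (m s : ℕ) (B : ℝ) : Prop :=
  ∀ (V G : Type) [Fintype V] [DecidableEq V] [Group G] [Finite G] [MulAction G V],
    Nat.card G ≤ s * m →
    (∀ v : V, (MulAction.orbit G v).ncard = m ∨ (MulAction.orbit G v).ncard = 1) →
    ∀ H : Finset (Finset V), (∀ e ∈ H, e.card = 3) →
      (∀ (a : G), ∀ e ∈ H, e.image (fun x => a • x) ∈ H) →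
    ∀ δ : ℝ, 0 < δ → ∀ k : ℕ, K δ ≤ k → (C δ k : ℝ) * B ≤ m →
    ∀ w : ℕ, w = {v : V | (MulAction.orbit G v).ncard = m}.ncard →
      (C δ k : ℝ) * w * (B * w / m) ^ (1 + δ) <
          ({e : Finset V | e ∈ H ∧ ∃ v ∈ e, (MulAction.orbit G v).ncard = m}.ncard : ℕ) ∨
        (∃ v : V, (MulAction.orbit G v).ncard = m ∧
          (C δ k : ℝ) * (B * w / m) ^ (1 + δ) < ((H.filter fun e => v ∈ e).card : ℕ)) →
      ∃ S : Finset V, S.card = k ∧ k + k / K δ ≤ (H.filter fun e => e ⊆ S).card

theorem result : ∃ (K : ℝ → ℕ) (C : ℝ → ℕ → ℕ), (∀ δ : ℝ, 0 < δ → 1 ≤ K δ) ∧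
    ∀ η : ℝ, 0 < η → ∃ M : ℕ, ∀ x s : ℕ, 8 ≤ x → 1 ≤ s →
      ({m : ℕ | 1 ≤ m ∧ m ≤ x ∧ ¬ SparseTriple K C m s ((s * Real.log x) ^ M)}.ncard : ℝ) ≤
        η * x := by
  obtain ⟨K, C, h⟩ := Pool.Agent.TH468.BA.exists_fun_triple
  exact ⟨K, C, fun δ hδ => (h δ hδ).1, fun η hη => Pool.Agent.TH468.BA.few_triple h η hη⟩

end Pool.Agent.Results.MP_c82047_co.AlmostAllOrders
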