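import Pool.Agent.TH602.Turan.BesCount

/-!
# The Brown-Erdős-Sós conjecture for triple systems closed under meets

Let `X`, `Y`, `Z` be **arbitrary** finite meet semilattices with at most `n` elements each, and let `H`
be a tripartite triple system on `X ∪ Y ∪ Z`, i.e. `H ⊆ X × Y × Z`, that is closed under
componentwise meets. If, for some `s ≥ 41`, no `s` triples of `H` span at most `s + 3` vertices, then

`|H| ≤ 6 s^{13/4} n^{7/4}`.

So in this class the conjecture `o(n²)` holds for all `k = s + 3 ≥ 44`, with a power saving.

Proof. For a triple `h ∈ H` consider the triples of `H` below `h` that share its first (second, third)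
vertex. If there are at least `s² + s` of them for the first two directions and at least one
`g ≠ h` for the third, then the meets `a_i ∧ b_j` and `a_i ∧ b_j ∧ g` (two layers of a `4 × m` grid)
contain `s` triples on at most `s + 3` vertices. So it is enough to count the triples `h = (x, y, z)`
with at most `C = s² + s` triples `(x, y', z')` below them. For fixed `x` some
`(x, u, w) ∈ H` is the meet of a proportion `1/C²` of all pairs of them. Each pair of `y`'s from
such a pair, together with a pair of `z`'s from another one, determines `u` and `w`, hence leaves less than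
`s` possibilities for `x`; so the sum of the fourth powers of the degrees is `O(n⁴)`.
-/

set_option autoImplicit false

universe u

namespace Pool.Agent.Results.MP_c82047_co.MeetClosed

open Finset Pool.Agent.TH602.Turan

/-- The number of vertices spanned by a set of triples: the number of its first coordinates, plus the
number of its second coordinates, plus the number of its third coordinates. -/
noncomputable def spanned {X Y Z : Type u} (T : Finset (X × Y × Z)) : ℕ :=
  ((fun e : X × Y × Z => e.1) '' (T : Set (X × Y × Z))).ncard +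
  ((fun e : X × Y × Z => e.2.1) '' (T : Set (X × Y × Z))).ncard +
  ((fun e : X × Y × Z => e.2.2) '' (T : Set (X × Y × Z))).ncard

/-- **Theorem.** Let `X`, `Y`, `Z` be finite meet semilattices with at most `n` elements, let
`H ⊆ X × Y × Z` be closed under componentwise meets, and let `s ≥ 41`. If any `s` triples of `H`
span more than `s + 3` vertices then `|H| ≤ 6 s^{13/4} n^{7/4}`. -/
theorem result (s : ℕ) (hs : 41 ≤ s) (n : ℕ) (X Y Z : Type u) [Fintype X] [Fintype Y] [Fintype Z]
    [SemilatticeInf X] [SemilatticeInf Y] [SemilatticeInf Z] (hX : Fintype.card X ≤ n)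
    (hY : Fintype.card Y ≤ n) (hZ : Fintype.card Z ≤ n) (H : Finset (X × Y × Z))
    (hH : ∀ e ∈ H, ∀ e' ∈ H, e ⊓ e' ∈ H)
    (hsp : ∀ T : Finset (X × Y × Z), T ⊆ H → T.card = s → s + 3 < spanned T) :
    (H.card : ℝ) ≤ 6 * (s : ℝ) ^ (13 / 4 : ℝ) * (n : ℝ) ^ (7 / 4 : ℝ) := by
  classical
  have hsp' : SparseTriples s H := by
    intro T hT hc
    have h := hsp T hT hc
    unfold spanned at h
    rw [← coe_image, ← coe_image, ← coe_image, Set.ncard_coe_finset, Set.ncard_coe_finset,
      Set.ncard_coe_finset] at h
    exact h
  have h := bes_bound hs H hH hsp' hX hY hZ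
  refine le_of_pow_le_pow_left₀ (n := 4) (by norm_num) (by positivity) ?_
  have h1 : ((s : ℝ) ^ (13 / 4 : ℝ)) ^ 4 = (s : ℝ) ^ 13 := by
    rw [← Real.rpow_natCast, ← Real.rpow_mul (Nat.cast_nonneg _), ← Real.rpow_natCast]
    norm_num
  have h2 : ((n : ℝ) ^ (7 / 4 : ℝ)) ^ 4 = (n : ℝ) ^ 7 := by
    rw [← Real.rpow_natCast, ← Real.rpow_mul (Nat.cast_nonneg _), ← Real.rpow_natCast]
    norm_num
  rw [mul_pow, mul_pow, h1, h2]
  have h3 : ((#H ^ 4 : ℕ) : ℝ) ≤ ((1296 * s ^ 13 * n ^ 7 : ℕ) : ℝ) := by exact_mod_cast h
  push_cast at h3
  norm_num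
  exact h3

end Pool.Agent.Results.MP_c82047_co.MeetClosed
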