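import Pool.Agent.TH468.BE.Final
import Pool.Agent.TH468.BE.Solv

/-! Triple systems with few vertex orbits. -/

set_option autoImplicit false

open Finset
open Pool.Agent.TH468.BE

namespace Pool.Agent.Results.MP_c82047_co.SolvableSymmetry

/-- `H` is a set of triples in `V` and the group `A` acts on `V` by automorphisms of `H`.
`A` belongs to `Tower φ l`: it is obtained by at most `l` rounds of extensions from commutative
groups and groups with Følner function at most `φ` (every solvable group of derived length at most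
`l` is of this kind, see `tower_of_derivedSeries`). `orbits A V L` is the number of orbits of `A` on
`V` with more than `L` vertices, and `|A| ≥ C L`. If more than `C |V| (orbits A V L) ^ (1 + η)`
triples contain a vertex with trivial stabiliser, then some `k` vertices span at least
`k + ⌊k / K⌋` triples. Here `K` depends on `φ, l, L, η` only and `C` also on `k ≥ K`. -/
theorem result (φ : ℕ → ℕ → ℕ) (l L : ℕ) (η : ℝ) (hη : 0 < η) :
    ∃ K : ℕ, 1 ≤ K ∧ ∀ k : ℕ, K ≤ k → ∃ C : ℕ, ∀ (V A : Type) [Fintype V] [DecidableEq V]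
      [Group A] [MulAction A V] (H : Finset (Finset V)), Tower φ l A → C * L ≤ Nat.card A →
      (∀ e ∈ H, e.card = 3) → (∀ (a : A), ∀ e ∈ H, e.image (fun x => a • x) ∈ H) →
      (C : ℝ) * Fintype.card V * (orbits A V L : ℝ) ^ (1 + η) <
        ({e : Finset V | e ∈ H ∧ ∃ b ∈ e, ∀ a : A, a • b = b → a = 1}.ncard : ℝ) →
      ∃ S : Finset V, S.card = k ∧ k + k / K ≤ #{e ∈ H | e ⊆ S} := by
  obtain ⟨K, hK1, hK⟩ := main 3 le_rfl φ l L η hη
  refine ⟨K, hK1, ?_⟩
  intro k hk
  obtain ⟨C, hC⟩ := hK (k + k / K) (le_trans hk (Nat.le_add_right _ _))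
  refine ⟨C + k * k + 1, ?_⟩
  intro V A _ _ _ _ H hA hCA hunif hinv hH
  classical
  have hq0 : (0 : ℝ) ≤ (orbits A V L : ℝ) ^ (1 + η) := by positivity
  have hle : ({e : Finset V | e ∈ H ∧ ∃ b ∈ e, ∀ a : A, a • b = b → a = 1}.ncard) ≤ H.card := by
    rw [← Set.ncard_coe_finset]
    refine Set.ncard_le_ncard ?_ (Set.toFinite _)
    intro e he
    exact he.1
  -- there are many vertices
  have hq1 : 1 ≤ orbits A V L := by
    have hne : {e : Finset V | e ∈ H ∧ ∃ b ∈ e, ∀ a : A, a • b = b → a = 1}.Nonempty := by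
      rw [← Set.ncard_pos (Set.toFinite _)]
      have h1 : (0 : ℝ) ≤ ((C + k * k + 1 : ℕ) : ℝ) * Fintype.card V *
        (orbits A V L : ℝ) ^ (1 + η) := by positivity
      have h2 := lt_of_le_of_lt h1 hH
      exact_mod_cast h2
    obtain ⟨e, -, b, -, hb⟩ := hne
    have hinjb : Function.Injective (fun a : A => a • b) := by
      intro a a' h
      simp only at h
      have h3 : a'⁻¹ * a = 1 := by
        apply hb
        rw [mul_smul, h, inv_smul_smul]
      exact (eq_of_inv_mul_eq_one h3).symm
    have hfinA : Finite A := Finite.of_injective _ hinjb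
    have hApos : 0 < Nat.card A := Nat.card_pos
    have horb : (MulAction.orbit A b).ncard = Nat.card A := by
      have h1 : MulAction.orbit A b = Set.range (fun a : A => a • b) := rfl
      rw [h1, ← Set.image_univ, Set.ncard_image_of_injective _ hinjb, Set.ncard_univ]
    unfold orbits
    rw [Nat.one_le_iff_ne_zero, ← Nat.pos_iff_ne_zero, Set.ncard_pos (Set.toFinite _)]
    refine ⟨MulAction.orbit A b, ⟨b, rfl⟩, ?_⟩
    rw [horb]
    rcases Nat.eq_zero_or_pos L with h | h
    · rw [h]; exact hApos
    · have : 2 * L ≤ (C + k * k + 1) * L := by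
        refine Nat.mul_le_mul_right _ ?_
        have : 1 ≤ k * k := Nat.mul_pos (by omega) (by omega)
        omega
      omega
  have hq1' : (1 : ℝ) ≤ (orbits A V L : ℝ) ^ (1 + η) :=
    Real.one_le_rpow (by exact_mod_cast hq1) (by linarith)
  have hbig : (C + k * k + 1) * Fintype.card V < H.card := by
    have h1 : (((C + k * k + 1) * Fintype.card V : ℕ) : ℝ) < (H.card : ℝ) := by
      calc (((C + k * k + 1) * Fintype.card V : ℕ) : ℝ) =
            ((C + k * k + 1 : ℕ) : ℝ) * Fintype.card V * 1 := by push_cast; ring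
        _ ≤ ((C + k * k + 1 : ℕ) : ℝ) * Fintype.card V * (orbits A V L : ℝ) ^ (1 + η) := by gcongr
        _ < _ := hH
        _ ≤ H.card := by exact_mod_cast hle
    exact_mod_cast h1
  have hn : k ≤ Fintype.card V := by
    have h1 : H ⊆ powersetCard 3 univ := by
      intro e he
      rw [mem_powersetCard]
      exact ⟨subset_univ _, hunif e he⟩
    have h2 := card_le_card h1
    rw [card_powersetCard, card_univ] at h2
    have h3 : (Fintype.card V).choose 3 ≤ Fintype.card V ^ 3 := Nat.choose_le_pow _ _
    by_contra hcon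
    push Not at hcon
    set n := Fintype.card V with hn
    have h4 : n * n ≤ k * k := Nat.mul_le_mul hcon.le hcon.le
    have h5 : n ^ 3 ≤ (k * k) * n := by
      calc n ^ 3 = (n * n) * n := by ring
        _ ≤ _ := Nat.mul_le_mul_right _ h4
    have h6 : (k * k) * n ≤ (C + k * k + 1) * n := Nat.mul_le_mul_right _ (by omega)
    omega
  obtain ⟨E, hE, hEc, hEu⟩ := hC V A H hA
    (le_trans (Nat.mul_le_mul_right _ (by omega)) hCA) hunif hinv (by
      refine lt_of_le_of_lt ?_ hH
      have : (C : ℝ) ≤ ((C + k * k + 1 : ℕ) : ℝ) := by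
        have : C ≤ C + k * k + 1 := by omega
        exact_mod_cast this
      gcongr)
  have h1 : (E.biUnion id).card ≤ k := by
    have e1 : (3 - 2) * (k + k / K) = k + k / K := by omega
    rw [e1] at hEu
    have h2 : k / K * K ≤ k := Nat.div_mul_le_self k K
    by_contra hcon
    push Not at hcon
    have h3 : K * (k + 1) ≤ K * (E.biUnion id).card := Nat.mul_le_mul_left _ hcon
    have h4 : K * (k + k / K) = K * k + k / K * K := by ring
    rw [h4] at hEu
    have h5 : K * (k + 1) = K * k + K := by ring
    generalize k / K = c at *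
    omega
  obtain ⟨S, hS1, hS2⟩ := exists_superset_card_eq h1 hn
  refine ⟨S, hS2, ?_⟩
  rw [← hEc]
  apply card_le_card
  intro e he
  rw [mem_filter]
  exact ⟨hE he, (subset_biUnion_of_mem id he).trans hS1⟩

end Pool.Agent.Results.MP_c82047_co.SolvableSymmetry
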