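import Pool.Agent.TH454.BW.WideFinal

/-!
# Triple systems decided by machines with fewer than `n ^ (1 - δ)` states

The vertices are the `n = 2 ^ m` strings of `m` bits, in any labelling. A machine with `w` states
reads the names of three vertices in parallel and decides whether they form an edge.

(1) If no `k` edges have at most `k + 3` vertices, where `k ≥ 62208`, then there are at most
`64 k w² (log₂ n)² n` edges.

(2) If `k ≥ 36 (L + 1)²` and no `k` edges have at most `k - ⌊k / (6 (L + 1))⌋` vertices, then there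
are at most `171 L k w (log₂ n)³ n ^ (1 + 1 / L)` edges (up to a factor at most two).

(3) For every `δ > 0` there is `K` such that for all `k ≥ K` and all large `n`, every triple system
with more than `n ^ (2 - δ / 2)` edges which is decided by a machine with at most `n ^ (1 - δ)`
states has `k` edges with at most `k - ⌊k / K⌋` vertices.
-/

set_option autoImplicit false

namespace Pool.Agent.Results.MP_c82047_co.WidthBelowLinear

open Pool.Agent.H607R2.BW Pool.Agent.TH454.BW

theorem result :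
    -- (1)
    (∀ (m w k : ℕ) (E : Finset (Finset (Str m))), 62208 ≤ k → (∀ s ∈ E, s.card = 3) →
      HyperWidth 3 w E → (∀ T ⊆ E, T.card = k → k + 3 < (T.biUnion id).card) →
      E.card ≤ 64 * k * (w * m) ^ 2 * 2 ^ m) ∧
    -- (2)
    (∀ (m w k L : ℕ) (E : Finset (Finset (Str m))), 1 ≤ L → 36 * (L + 1) ^ 2 ≤ k →
      (∀ s ∈ E, s.card = 3) → HyperWidth 3 w E →
      (∀ T ⊆ E, T.card = k → k < (T.biUnion id).card + k / (6 * (L + 1))) →
      E.card ≤ 171 * (L * k * w * m ^ 3 * 2 ^ ((m + 1) / L) * 2 ^ m)) ∧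
    -- (3)
    (∀ δ : ℝ, 0 < δ → ∃ K : ℕ, 1 ≤ K ∧ ∀ k : ℕ, K ≤ k → ∃ m₀ : ℕ,
      ∀ (m w : ℕ) (E : Finset (Finset (Str m))), m₀ ≤ m →
        (w : ℝ) ≤ ((2 : ℝ) ^ m) ^ (1 - δ) → (∀ s ∈ E, s.card = 3) → HyperWidth 3 w E →
        ((2 : ℝ) ^ m) ^ (2 - δ / 2) < E.card →
        ∃ T ⊆ E, T.card = k ∧ (T.biUnion id).card + k / K ≤ k) := by
  refine ⟨?_, ?_, ?_⟩
  · intro m w k E hk hE hW hfree
    have h := bes_bound 3 m w k E le_rfl (by simpa [Nat.factorial] using hk) hE hW
      (by simpa using hfree)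
    simpa using h
  · intro m w k L E hL hk hE hW hfree
    have h := wide_bound 3 m w k L E le_rfl hL hk hE hW (by simpa using hfree)
    have h6 : Nat.factorial 3 = 6 := rfl
    rw [h6] at h
    norm_num at h
    omega
  · intro δ hδ
    obtain ⟨K, hK, h⟩ := wide_asy 3 le_rfl δ hδ
    refine ⟨K, hK, fun k hk => ?_⟩
    obtain ⟨m₀, hm₀⟩ := h k hk
    refine ⟨m₀, fun m w E hm hw hE hW hc => ?_⟩
    obtain ⟨T, hT, hTk, hTc⟩ := hm₀ m w E hm hw hE hW hc
    exact ⟨T, hT, hTk, by simpa using hTc⟩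

end Pool.Agent.Results.MP_c82047_co.WidthBelowLinear
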